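import Mathlib

namespace Pool.Agent.Results.MP_2432f5_co.NoMaximal

/-- The image of a pattern `p`, whose letters are constants (`Sum.inl a` with `a` in the
alphabet `A`) and variables (`Sum.inr x` with `x` in `X`), under the morphism that fixes the
constants and sends the variable `x` to `h x`. -/
def image {A X : Type} (h : X → List A) (p : List (A ⊕ X)) : List A :=
  p.flatMap (Sum.elim (fun a => [a]) h)

/-- The word `w` over `A` encounters the pattern `p`. -/
def Encounters {A X : Type} (p : List (A ⊕ X)) (w : List A) : Prop :=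
  ∃ h : X → List A, (∀ x, h x ≠ []) ∧ image h p <:+: w

/-- `u` is a maximal `p`-free word over the alphabet `A`. -/
def MaximalFree {A X : Type} (p : List (A ⊕ X)) (u : List A) : Prop :=
  ¬ Encounters p u ∧ ∀ a b : A, Encounters p (a :: u ++ [b])

/-- The pattern `p` is avoidable over `A`: some infinite word over `A` has only `p`-free
prefixes. -/
def Avoidable {A X : Type} (p : List (A ⊕ X)) : Prop :=
  ∃ s : ℕ → A, ∀ n, ¬ Encounters p ((List.range n).map s)

/-- The statement of Q1 for the alphabet `A` and the pattern `p`: every `p`-free word is a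
factor of a maximal `p`-free word. -/
def Extends {A X : Type} (p : List (A ⊕ X)) : Prop :=
  ∀ w : List A, ¬ Encounters p w → ∃ u : List A, MaximalFree p u ∧ w <:+: u

theorem result (A X : Type) [Finite A] [Nontrivial A] (a b : A) (q : List (A ⊕ X)) :
    Avoidable (Sum.inl a :: q ++ [Sum.inl b]) ∧ ¬ Extends (Sum.inl a :: q ++ [Sum.inl b]) := by
  have him : ∀ h : X → List A,
      image h (Sum.inl a :: q ++ [Sum.inl b]) = a :: image h q ++ [b] := by
    intro h
    simp [image]
  constructor
  · obtain ⟨c, hc⟩ := exists_ne a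
    refine ⟨fun _ => c, ?_⟩
    rintro n ⟨h, -, hinf⟩
    rw [him] at hinf
    have : a ∈ (List.range n).map (fun _ => c) := hinf.subset (by simp)
    simp only [List.mem_map] at this
    obtain ⟨-, -, h'⟩ := this
    exact hc h'
  intro hext
  obtain ⟨u, ⟨hu, hmax⟩, -⟩ := hext [] (by
    rintro ⟨h, -, hinf⟩
    have := List.infix_nil.mp hinf
    simp [image] at this)
  obtain ⟨c, hc⟩ := exists_ne a
  obtain ⟨d, hd⟩ := exists_ne b
  obtain ⟨h, hne, s, t, hst⟩ := hmax c d
  apply hu
  refine ⟨h, hne, ?_⟩
  rw [him] at hst ⊢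
  rcases s with _ | ⟨s0, s'⟩
  · simp at hst
    exact absurd hst.1.symm hc
  · rcases List.eq_nil_or_concat t with rfl | ⟨t', t0, rfl⟩
    · have h1 : (s0 :: s' ++ (a :: image h q)) ++ [b] = (c :: u) ++ [d] := by
        simpa using hst
      have h2 := (List.append_inj' h1 rfl).2
      simp at h2
      exact absurd h2.symm hd
    · have h1 : (s0 :: (s' ++ (a :: image h q ++ [b]) ++ t')) ++ [t0] = (c :: u) ++ [d] := by
        simpa using hst
      have h2 := (List.append_inj' h1 rfl).1
      exact ⟨s', t', (List.cons.inj h2).2⟩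

end Pool.Agent.Results.MP_2432f5_co.NoMaximal
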